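import Pool.Agent.H456R3.S.F15

/-! # Uniform cube cover of the set of finiteness of optimal potentials -/

set_option autoImplicit false
set_option linter.unusedSectionVars false
set_option linter.unusedVariables false
open MeasureTheory Metric Set Filter Topology Function
open scoped ENNReal NNReal InnerProductSpace

namespace Pool.Agent.TH332.Opt

open Pool.Agent.H456R3.S

variable {d k : ℕ}

theorem bb_sum {U : Fin k → Pr d} (hU : ∀ j, H1 (U j)) (F : Finset ℤ)
    {A : ℤ → Set (X d)} (hA : ∀ m, MeasurableSet (A m)) (hd : Set.PairwiseDisjoint (↑F) A) :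
    ∑ m ∈ F, bb U (A m) ≤ ∑ j, n2 (U j) := by
  unfold bb
  rw [Finset.sum_comm]
  apply Finset.sum_le_sum
  intro j _
  have h1 : ENNReal.ofReal (∑ m ∈ F, ia (A m) (U j)) ≤ ENNReal.ofReal (n2 (U j)) := by
    rw [ENNReal.ofReal_sum_of_nonneg fun m _ => ia_nonneg _ _, ← lint_n2 (hU j)]
    have h2 : ∀ m ∈ F, ENNReal.ofReal (ia (A m) (U j)) =
        ∫⁻ x in A m, ‖(U j).1 x‖ₑ ^ 2 := fun m _ => ofReal_ia (hA m) (hU j)
    rw [Finset.sum_congr rfl h2, ← lintegral_biUnion_finset hd fun m _ => hA m]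
    exact setLIntegral_le_lintegral _ _
  exact (ENNReal.ofReal_le_ofReal_iff (n2_nonneg _)).1 h1

/-- the integers `q` whose slab carries more than `ε0` of the mass: at most `3 n` of them -/
theorem bad_card {U : Fin k → Pr d} (hU : ∀ j, H1 (U j)) (h2 : ∑ j, n2 (U j) = k) (i : Fin d)
    {ε0 : ℝ} (hε0 : 0 < ε0) {n : ℕ} (hn : (k:ℝ) < n * ε0) (F : Finset ℤ)
    (hF : ∀ q ∈ F, ε0 < bb U (slab i q (3/2))) : F.card ≤ 3 * n := by
  classical
  -- residue classes
  have hres : ∀ r : ℤ, (F.filter fun q => q % 3 = r).card ≤ n := by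
    intro r
    set G := F.filter fun q => q % 3 = r with hG
    have h1 := bb_sum hU G (A := fun q => slab i q (3/2)) (fun m => slab_meas _ _ _) (by
      intro a ha b hb hab
      rw [Function.onFun, Set.disjoint_left]
      intro x hx hx2
      have h3 := abs_lt.1 (show |x i - (a:ℝ)| < 3/2 from hx)
      have h4 := abs_lt.1 (show |x i - (b:ℝ)| < 3/2 from hx2)
      have ha' : a % 3 = r := (Finset.mem_filter.1 (Finset.mem_coe.1 ha)).2
      have hb' : b % 3 = r := (Finset.mem_filter.1 (Finset.mem_coe.1 hb)).2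
      have h5 : (a:ℝ) - b < 3 := by linarith [h3.1, h4.2]
      have h6 : (b:ℝ) - a < 3 := by linarith [h3.2, h4.1]
      have h5' : a - b < 3 := by exact_mod_cast h5
      have h6' : b - a < 3 := by exact_mod_cast h6
      omega)
    rw [h2] at h1
    have h3 : (G.card : ℝ) * ε0 ≤ ∑ m ∈ G, bb U (slab i m (3/2)) := by
      have h4 : ∑ m ∈ G, ε0 ≤ ∑ m ∈ G, bb U (slab i m (3/2)) :=
        Finset.sum_le_sum fun m hm => (hF m (Finset.mem_filter.1 hm).1).le
      simpa using h4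
    have h5 : (G.card : ℝ) * ε0 < n * ε0 := by linarith
    have h6 : (G.card : ℝ) < n := lt_of_mul_lt_mul_right h5 hε0.le
    exact_mod_cast h6.le
  have hcov : F ⊆ (F.filter fun q => q % 3 = 0) ∪ ((F.filter fun q => q % 3 = 1) ∪
      (F.filter fun q => q % 3 = 2)) := by
    intro q hq
    simp only [Finset.mem_union, Finset.mem_filter]
    have h3 : q % 3 = 0 ∨ q % 3 = 1 ∨ q % 3 = 2 := by omega
    rcases h3 with h3 | h3 | h3
    · exact Or.inl ⟨hq, h3⟩
    · exact Or.inr (Or.inl ⟨hq, h3⟩)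
    · exact Or.inr (Or.inr ⟨hq, h3⟩)
  calc F.card ≤ _ := Finset.card_le_card hcov
    _ ≤ _ := Finset.card_union_le _ _
    _ ≤ n + (n + n) := Nat.add_le_add (hres 0)
        ((Finset.card_union_le _ _).trans (Nat.add_le_add (hres 1) (hres 2)))
    _ = 3 * n := by ring

theorem finite_of_card {S : Set ℤ} {n : ℕ} (h : ∀ F : Finset ℤ, (∀ q ∈ F, q ∈ S) → F.card ≤ n) :
    ∃ F : Finset ℤ, F.card ≤ n ∧ ∀ q, q ∈ S → q ∈ F := by
  classical
  have hf : S.Finite := by
    by_contra hinf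
    obtain ⟨F, hF, hc⟩ := (show S.Infinite from hinf).exists_subset_card_eq (n + 1)
    have := h F fun q hq => hF hq
    omega
  exact ⟨hf.toFinset, h _ fun q hq => (hf.mem_toFinset.1 hq), fun q hq => hf.mem_toFinset.2 hq⟩

/-- **Uniform cube cover.** -/
theorem cube_cover (hd : 1 ≤ d) (hk : 1 ≤ k) {p : ℝ} (hp0 : 0 < p) (hp1 : p ≤ 1) :
    ∃ N : ℕ, ∀ V : X d → ℝ≥0∞, Measurable V → ∫⁻ x, V x ^ (-p) ≤ 1 →
      (∀ W : X d → ℝ≥0∞, Measurable W → ∫⁻ x, W x ^ (-p) ≤ 1 → lamK k V ≤ lamK k W) →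
      ∃ Q : Finset (Fin d → ℤ), Q.card ≤ N ∧
        ∀ᵐ x, V x ≠ ∞ → ∃ q ∈ Q, ∀ i, |x i - q i| ≤ 1/2 := by
  classical
  obtain ⟨W, hW, hW1, hWf⟩ := exists_finite hd k hp0
  obtain ⟨ε0, hε0, hse⟩ := slab_empty (k := k) d hk hp0 hp1
    (Λ := (lamK k W).toReal) ENNReal.toReal_nonneg
  obtain ⟨n, hn⟩ := exists_nat_gt ((k:ℝ) / ε0)
  rw [div_lt_iff₀ hε0] at hn
  refine ⟨(3 * n) ^ d, fun V hV hV1 hopt => ?_⟩
  have hVW := hopt W hW hW1
  have hfin : lamK k V ≠ ∞ := ne_top_of_le_ne_top hWf hVW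
  set l := (lamK k V).toReal with hl
  have hl0 : 0 ≤ l := ENNReal.toReal_nonneg
  have hlam : lamK k V = ENNReal.ofReal l := (ENNReal.ofReal_toReal hfin).symm
  have hlW : l ≤ (lamK k W).toReal := ENNReal.toReal_mono hWf hVW
  obtain ⟨U, hU, hq⟩ := eigenframe hV hp0 hp1 hV1 hl0 hlam
  have hUH : ∀ j, H1 (U j : Pr d) := fun j => HV.h1 _
  have hmain := hse V hV hV1 l hl0 hlW hlam (fun W h1 h2 _ => hopt W h1 h2) U hU hq
  have h2 : ∑ j, n2 (U j : Pr d) = k := by
    have : ∀ j, n2 (U j : Pr d) = 1 := fun j => (orth_iff.1 hU.orth).n2 j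
    simp [this]
  have hS : ∀ i : Fin d, ∃ F : Finset ℤ, F.card ≤ 3 * n ∧
      ∀ q : ℤ, ε0 < bb (fun j => (U j : Pr d)) (slab i q (3/2)) → q ∈ F := fun i =>
    finite_of_card (S := {q : ℤ | ε0 < bb (fun j => (U j : Pr d)) (slab i q (3/2))})
      fun F hF => bad_card hUH h2 i hε0 hn F hF
  choose F hFc hF using hS
  refine ⟨Fintype.piFinset F, ?_, ?_⟩
  · rw [Fintype.card_piFinset]
    calc ∏ i, (F i).card ≤ ∏ _i : Fin d, 3 * n := Finset.prod_le_prod' fun i _ => hFc i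
      _ = (3 * n) ^ d := by simp
  · have hall : ∀ᵐ x : X d, ∀ (i : Fin d) (q : ℤ), q ∉ F i → |x i - q| ≤ 1/2 → V x = ∞ := by
      rw [ae_all_iff]; intro i
      rw [ae_all_iff]; intro q
      by_cases hq : q ∈ F i
      · exact Eventually.of_forall fun x h => absurd hq h
      · have h3 : bb (fun j => (U j : Pr d)) (slab i q (3/2)) ≤ ε0 := by
          by_contra h; exact hq (hF i q (not_le.1 h))
        filter_upwards [hmain i q h3] with x hx _ using hx
    filter_upwards [hall] with x hx hxV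
    refine ⟨fun i => round (x i), Fintype.mem_piFinset.2 fun i => ?_, fun i => abs_sub_round (x i)⟩
    by_contra h
    exact hxV (hx i _ h (abs_sub_round (x i)))

end Pool.Agent.TH332.Opt
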